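import Pool.Agent.N912.RC.Stm
import Pool.Agent.W78.GA.Basic

/-!
RC5 of project RC (helper912), by helper87: `b^Ω(N z)` is aperiodic on every imaginary quadratic
order, from RC0 and RC4.
-/

set_option autoImplicit false

namespace Pool.Agent.N87.RC

open NumberField Finset
open Pool.Agent.W78.GA (Qd nm ball nm_mul nm_zero nm_eq_zero one_le_nm mem_ball)
open Pool.Agent.N912.ED.W78EG (bO Apd)
open Pool.Agent.W251.GX (Cm)

variable {t c : ℤ}

lemma cm_bO (hD : t ^ 2 < 4 * c) {N : ℕ} {b : ℂ} (hN : 1 ≤ N) (hb : b ^ N = 1) :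
    Cm N (bO b : Qd t c → ℂ) where
  pos := hN
  mul := by
    intro z w hz hw
    unfold bO
    have h1 : nm z ≠ 0 := fun h => hz ((nm_eq_zero hD).1 h)
    have h2 : nm w ≠ 0 := fun h => hw ((nm_eq_zero hD).1 h)
    rw [nm_mul, ArithmeticFunction.cardFactors_mul h1 h2, pow_add]
  pow := by
    intro z
    unfold bO
    rw [← pow_mul, mul_comm, pow_mul, hb, one_pow]

lemma re_natMul (M : ℕ) (z : Qd t c) : ((M : Qd t c) * z).re = M * z.re := by
  rw [QuadraticAlgebra.re_mul, QuadraticAlgebra.re_natCast, QuadraticAlgebra.im_natCast]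
  ring

lemma im_natMul (M : ℕ) (z : Qd t c) : ((M : Qd t c) * z).im = M * z.im := by
  rw [QuadraticAlgebra.im_mul, QuadraticAlgebra.re_natCast, QuadraticAlgebra.im_natCast]
  ring

open scoped Classical in
lemma inner (hD : t ^ 2 < 4 * c) {K : Type} [Field K] [NumberField K] (φ : Qd t c →+* 𝓞 K)
    {f₀ : ℕ} (hinj : Function.Injective φ)
    (hnm : ∀ z, Ideal.absNorm (Ideal.span {φ z}) = nm z)
    (hf : ∀ w : 𝓞 K, ∃ z, φ z = (f₀ : 𝓞 K) * w) (b : ℂ) (M : ℕ) (r₁ r₂ : ℤ) (z₀ : Qd t c)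
    (h₁ : (M : ℤ) ∣ z₀.re - r₁) (h₂ : (M : ℤ) ∣ z₀.im - r₂) (X : ℝ) :
    ∑ z ∈ ((ball t c X).filter (fun z => (M : ℤ) ∣ z.re - r₁ ∧ (M : ℤ) ∣ z.im - r₂)).filter
      (fun z => Ideal.Quotient.mk (Ideal.span {((M * f₀ : ℕ) : 𝓞 K)}) (φ z) =
        Ideal.Quotient.mk (Ideal.span {((M * f₀ : ℕ) : 𝓞 K)}) (φ z₀)), bO b z =
    ∑ᶠ z ∈ {z : 𝓞 K | z ≠ 0 ∧ (Ideal.absNorm (Ideal.span {z}) : ℝ) ≤ X ∧
      ((M * f₀ : ℕ) : 𝓞 K) ∣ z - φ z₀},
      b ^ ArithmeticFunction.cardFactors (Ideal.absNorm (Ideal.span {z})) := by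
  set T := ((ball t c X).filter (fun z => (M : ℤ) ∣ z.re - r₁ ∧ (M : ℤ) ∣ z.im - r₂)).filter
      (fun z => Ideal.Quotient.mk (Ideal.span {((M * f₀ : ℕ) : 𝓞 K)}) (φ z) =
        Ideal.Quotient.mk (Ideal.span {((M * f₀ : ℕ) : 𝓞 K)}) (φ z₀)) with hT
  have hset : {z : 𝓞 K | z ≠ 0 ∧ (Ideal.absNorm (Ideal.span {z}) : ℝ) ≤ X ∧
      ((M * f₀ : ℕ) : 𝓞 K) ∣ z - φ z₀} = φ '' (T : Set (Qd t c)) := by
    ext w
    simp only [Set.mem_setOf_eq, Set.mem_image, Finset.mem_coe]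
    constructor
    · rintro ⟨hw0, hwX, y, hy⟩
      obtain ⟨z', hz'⟩ := hf y
      have hw : φ (z₀ + (M : Qd t c) * z') = w := by
        rw [map_add, map_mul, map_natCast, hz']
        have : w = φ z₀ + ((M * f₀ : ℕ) : 𝓞 K) * y := by rw [← hy]; ring
        rw [this]
        push_cast
        ring
      refine ⟨z₀ + (M : Qd t c) * z', ?_, hw⟩
      rw [hT, mem_filter, mem_filter, mem_ball hD]
      have hne : z₀ + (M : Qd t c) * z' ≠ 0 := by
        intro h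
        rw [h, map_zero] at hw
        exact hw0 hw.symm
      refine ⟨⟨⟨(one_le_nm hD).2 hne, ?_⟩, ?_, ?_⟩, ?_⟩
      · rw [← hnm, hw]
        exact hwX
      · rw [QuadraticAlgebra.re_add, re_natMul]
        have : z₀.re + (M : ℤ) * z'.re - r₁ = (z₀.re - r₁) + M * z'.re := by ring
        rw [this]
        exact dvd_add h₁ (dvd_mul_right _ _)
      · rw [QuadraticAlgebra.im_add, im_natMul]
        have : z₀.im + (M : ℤ) * z'.im - r₂ = (z₀.im - r₂) + M * z'.im := by ring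
        rw [this]
        exact dvd_add h₂ (dvd_mul_right _ _)
      · rw [Ideal.Quotient.eq, Ideal.mem_span_singleton, hw]
        exact ⟨y, hy⟩
    · rintro ⟨z, hz, rfl⟩
      rw [hT, mem_filter, mem_filter, mem_ball hD] at hz
      obtain ⟨⟨⟨hz1, hzX⟩, -, -⟩, hz2⟩ := hz
      refine ⟨?_, ?_, ?_⟩
      · intro h
        have h' : z = 0 := hinj (by rw [h, map_zero])
        exact (one_le_nm hD).1 hz1 h'
      · rw [hnm]
        exact hzX
      · rw [Ideal.Quotient.eq, Ideal.mem_span_singleton] at hz2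
        exact hz2
  rw [hset, finsum_mem_image hinj.injOn, finsum_mem_coe_finset]
  refine Finset.sum_congr rfl (fun z _ => ?_)
  rw [hnm]
  rfl

theorem rc5 (h0 : Pool.Agent.N912.RC.S_RC0) (h4 : Pool.Agent.N912.RC.S_RC4) :
    Pool.Agent.N912.RC.S_RC5 := by
  classical
  intro t c hD N b hN hb hb1
  obtain ⟨K, iF, iN, iT, φ, f₀, hfin, hf₀, hinj, hnm, hf⟩ := h0 t c hD
  refine ⟨cm_bO hD hN hb, ?_⟩
  intro M r₁ r₂ hM ε hε
  set m : ℕ := M * f₀ with hm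
  have hm1 : 1 ≤ m := Nat.mul_pos hM hf₀
  have hne : Ideal.span {(m : 𝓞 K)} ≠ ⊥ := by
    rw [Ne, Ideal.span_singleton_eq_bot]
    exact_mod_cast (by omega : m ≠ 0)
  haveI : Finite (𝓞 K ⧸ Ideal.span {(m : 𝓞 K)}) := Ideal.finiteQuotientOfFreeOfNeBot _ hne
  haveI : Fintype (𝓞 K ⧸ Ideal.span {(m : 𝓞 K)}) := Fintype.ofFinite _
  set Q := 𝓞 K ⧸ Ideal.span {(m : 𝓞 K)} with hQ
  set k : ℕ := Fintype.card Q with hk
  have hkpos : 0 < k := Fintype.card_pos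
  have hkR : (0 : ℝ) < k := by exact_mod_cast hkpos
  have hεk : 0 < ε / k := div_pos hε hkR
  -- each class
  have hcls : ∀ q : Q, ∃ X₀ : ℝ, ∀ X : ℝ, X₀ ≤ X →
      ‖∑ z ∈ ((ball t c X).filter (fun z => (M : ℤ) ∣ z.re - r₁ ∧ (M : ℤ) ∣ z.im - r₂)).filter
        (fun z => Ideal.Quotient.mk (Ideal.span {(m : 𝓞 K)}) (φ z) = q), bO b z‖ ≤
        ε / k * X := by
    intro q
    by_cases hq : ∃ z₀ : Qd t c, ((M : ℤ) ∣ z₀.re - r₁ ∧ (M : ℤ) ∣ z₀.im - r₂) ∧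
        Ideal.Quotient.mk (Ideal.span {(m : 𝓞 K)}) (φ z₀) = q
    · obtain ⟨z₀, ⟨h₁, h₂⟩, rfl⟩ := hq
      obtain ⟨X₀, hX₀⟩ := h4 K hfin N b hN hb hb1 m (φ z₀) hm1 (ε / k) hεk
      refine ⟨X₀, fun X hX => ?_⟩
      have := inner hD φ hinj hnm hf b M r₁ r₂ z₀ h₁ h₂ X
      rw [this]
      exact hX₀ X hX
    · refine ⟨0, fun X hX => ?_⟩
      rw [Finset.filter_false_of_mem, Finset.sum_empty, norm_zero]
      · positivity
      · intro z hz h
        exact hq ⟨z, (mem_filter.1 hz).2, h⟩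
  choose X₀ hX₀ using hcls
  refine ⟨∑ q : Q, |X₀ q|, fun X hX => ?_⟩
  rw [← Finset.sum_fiberwise (s := (ball t c X).filter
      (fun z => (M : ℤ) ∣ z.re - r₁ ∧ (M : ℤ) ∣ z.im - r₂))
      (g := fun z => Ideal.Quotient.mk (Ideal.span {(m : 𝓞 K)}) (φ z)) (f := bO b)]
  refine (norm_sum_le _ _).trans ?_
  have h1 : ∀ q : Q, X₀ q ≤ X := fun q => (le_abs_self _).trans
    ((Finset.single_le_sum (f := fun q => |X₀ q|) (fun i _ => abs_nonneg _)
      (Finset.mem_univ q)).trans hX)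
  refine (Finset.sum_le_sum (fun q _ => hX₀ q X (h1 q))).trans ?_
  rw [Finset.sum_const, Finset.card_univ, ← hk, nsmul_eq_mul]
  have : (k : ℝ) * (ε / k * X) = ε * X := by field_simp
  rw [this]

end Pool.Agent.N87.RC
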